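import Pool.Agent.Helper72.UGC.Defs

/-!
# UGC-3: summing the relations over the corners of a box

Expand both sides: the left side is `∑_{s'} ∑_s g (n + W ∑_{i ∈ s} (u i + [i ∈ s'] t i) k i)`. For fixed `s` the value depends only on
`s' ∩ s`, and if `s ≠ univ` pick `j ∉ s`; the involution `s' ↦ s' ∆ {j}` pairs equal terms, so the inner sum over `s'` is `0` in `ZMod 2`
(`Finset.sum_involution` or `CharTwo.add_self_eq_zero`). The term `s = univ` is `∑_{s'} g (n + W ∑_i u i k i + W ∑_{i ∈ s'} t i k i)`.
-/

set_option autoImplicit false

namespace UGC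

open Finset UGB

/-- Toggling the membership of one element pairs off the subsets. -/
theorem sum_toggle {d : ℕ} (j : Fin d) (f : Finset (Fin d) → ZMod 2)
    (h : ∀ s, j ∉ s → f (insert j s) = f s) : ∑ s : Finset (Fin d), f s = 0 := by
  classical
  refine Finset.sum_involution (fun s _ => if j ∈ s then s.erase j else insert j s) ?_ ?_ ?_ ?_
  · intro s _
    by_cases hj : j ∈ s
    · simp only [hj, if_true]
      have h1 := h (s.erase j) (Finset.notMem_erase j s)
      rw [Finset.insert_erase hj] at h1
      rw [h1]
      exact CharTwo.add_self_eq_zero _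
    · simp only [hj, if_false]
      rw [h s hj]
      exact CharTwo.add_self_eq_zero _
  · intro s _ _
    by_cases hj : j ∈ s
    · simp only [hj, if_true]
      intro he
      exact Finset.notMem_erase j s (he.symm ▸ hj)
    · simp only [hj, if_false]
      intro he
      exact hj (he ▸ Finset.mem_insert_self j s)
  · intro s _
    exact Finset.mem_univ _
  · intro s _
    by_cases hj : j ∈ s
    · simp only [hj, if_true, Finset.notMem_erase, if_false]
      exact Finset.insert_erase hj
    · simp only [hj, if_false, Finset.mem_insert_self, if_true]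
      exact Finset.erase_insert hj

theorem corner (d : ℕ) (g : ℕ → ZMod 2) (W : ℕ) (k u t : Fin d → ℕ) (n : ℕ) :
    ∑ s : Finset (Fin d), DD g W k (fun i => u i + if i ∈ s then t i else 0) n =
      DD g W k t (n + W * ∑ i, u i * k i) := by
  classical
  unfold DD
  rw [Finset.sum_comm]
  rw [Finset.sum_eq_single_of_mem (Finset.univ : Finset (Fin d)) (Finset.mem_univ _)]
  · refine Finset.sum_congr rfl fun s _ => ?_
    congr 1
    have h1 : ∑ i : Fin d, (u i + if i ∈ s then t i else 0) * k i =
        ∑ i, u i * k i + ∑ i ∈ s, t i * k i := by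
      have h2 : ∑ i ∈ s, t i * k i = ∑ i, if i ∈ s then t i * k i else 0 := by
        rw [Finset.sum_ite_mem, Finset.univ_inter]
      rw [h2, ← Finset.sum_add_distrib]
      refine Finset.sum_congr rfl fun i _ => ?_
      by_cases hi : i ∈ s
      · simp only [hi, if_true]; ring
      · simp only [hi, if_false]; ring
    rw [h1]
    ring
  · intro s _ hs
    obtain ⟨j, hj⟩ : ∃ j, j ∉ s := by
      by_contra hcon
      push Not at hcon
      exact hs (Finset.eq_univ_iff_forall.2 hcon)
    refine sum_toggle j _ fun s' hjs' => ?_
    congr 1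
    congr 1
    congr 1
    refine Finset.sum_congr rfl fun i hi => ?_
    have hij : i ≠ j := fun h => hj (h ▸ hi)
    simp only [Finset.mem_insert, hij, false_or]

end UGC
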