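import Pool.Agent.Helper72.UGC.Defs

/-!
# UGC-4: from a cube with bounded sides to one shift

Let `L = T !` (all `t i` divide `L`), `2 ^ r ≥ d` (e.g. `r = d`), `K = 2 ^ r * L`. In `(ZMod 2)[X]`: `1 + X ^ t` divides `1 + X ^ L` if `t ∣ L`
(`sub_dvd_pow_sub_pow`, `ZMod 2` has characteristic two), so `∏_i (1 + X ^ t i)` divides `(1 + X ^ L) ^ d`, which divides
`(1 + X ^ L) ^ (2 ^ r) = 1 + X ^ K` (`add_pow_char_pow`). Let `q * ∏_i (1 + X ^ t i) = 1 + X ^ K` and `J = q.support`; `q` has degree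
`≤ K - ∑ t i ≤ K`, so `J ⊆ range (K + 1)`. For fixed `h`, `n` the map `p ↦ ∑_{j ∈ p.support} g (n + h j) = ∑_j p.coeff j * g (n + h j)` is
additive, and for the shift operator `S g = g (· + h)` on functions `p ↦ Polynomial.aeval S p g` is a ring action: `aeval S (q * p) g n =
∑_{j ∈ J} (aeval S p g) (n + h j)`, and `aeval S (∏ (1 + X ^ t i)) g n = ∑_s g (n + h ∑_{i ∈ s} t i)` (`Finset.prod_one_add`:
`∏ (1 + X ^ t i) = ∑_s ∏_{i ∈ s} X ^ t i`). (Coefficients of `q` are `0` or `1`.)
-/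

set_option autoImplicit false

namespace UGC

open Finset UGB

open Polynomial in
private noncomputable def phi (g : ℕ → ZMod 2) (h n : ℕ) (p : (ZMod 2)[X]) : ZMod 2 :=
  p.sum (fun j c => c * g (n + h * j))

open Polynomial in
private lemma phi_add (g : ℕ → ZMod 2) (h n : ℕ) (p q : (ZMod 2)[X]) :
    phi g h n (p + q) = phi g h n p + phi g h n q := by
  unfold phi
  apply Polynomial.sum_add_index
  · intro i; simp
  · intro i a b; ring

open Polynomial in
private lemma phi_zero (g : ℕ → ZMod 2) (h n : ℕ) : phi g h n 0 = 0 := by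
  unfold phi
  simp

open Polynomial in
private lemma phi_sum {ι : Type} (g : ℕ → ZMod 2) (h n : ℕ) (s : Finset ι) (f : ι → (ZMod 2)[X]) :
    phi g h n (∑ i ∈ s, f i) = ∑ i ∈ s, phi g h n (f i) := by
  classical
  induction s using Finset.induction_on with
  | empty => simp [phi_zero]
  | insert a s ha ih => rw [Finset.sum_insert ha, Finset.sum_insert ha, phi_add, ih]

open Polynomial in
private lemma phi_shift (g : ℕ → ZMod 2) (h n a : ℕ) (q : (ZMod 2)[X]) :
    phi g h n (q * X ^ a) = phi g h (n + h * a) q := by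
  induction q using Polynomial.induction_on' with
  | add p q hp hq => rw [add_mul, phi_add, phi_add, hp, hq]
  | monomial j c =>
    rw [Polynomial.monomial_mul_X_pow]
    unfold phi
    rw [Polynomial.sum_monomial_index _ _ (by simp), Polynomial.sum_monomial_index _ _ (by simp)]
    congr 2
    ring

open Polynomial in
private lemma phi_support (g : ℕ → ZMod 2) (h n : ℕ) (q : (ZMod 2)[X]) :
    phi g h n q = ∑ j ∈ q.support, g (n + h * j) := by
  unfold phi
  rw [Polynomial.sum_def]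
  apply Finset.sum_congr rfl
  intro j hj
  have h1 : q.coeff j ≠ 0 := Polynomial.mem_support_iff.mp hj
  have h2 : ∀ c : ZMod 2, c ≠ 0 → c = 1 := by decide
  rw [h2 _ h1, one_mul]

open Polynomial in
private lemma prod_dvd (d T : ℕ) (t : Fin d → ℕ) (ht : ∀ i, 1 ≤ t i ∧ t i ≤ T) :
    (∏ i, (1 + X ^ t i) : (ZMod 2)[X]) ∣ 1 + X ^ (2 ^ d * T.factorial) := by
  have h1 : ∀ i, ((1 : (ZMod 2)[X]) + X ^ t i) ∣ 1 + X ^ T.factorial := by
    intro i
    obtain ⟨m, hm⟩ := Nat.dvd_factorial (ht i).1 (ht i).2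
    have h2 := sub_dvd_pow_sub_pow ((X : (ZMod 2)[X]) ^ t i) 1 m
    rw [one_pow, ← pow_mul, ← hm] at h2
    have h3 : ∀ p : (ZMod 2)[X], p - 1 = 1 + p := by
      intro p
      rw [sub_eq_add_neg, CharTwo.neg_eq, add_comm]
    rw [h3, h3] at h2
    exact h2
  have h4 : (∏ i, (1 + X ^ t i) : (ZMod 2)[X]) ∣ (1 + X ^ T.factorial) ^ d := by
    have := Finset.prod_dvd_prod_of_dvd (s := (Finset.univ : Finset (Fin d)))
      (fun i => ((1 : (ZMod 2)[X]) + X ^ t i)) (fun _ => 1 + X ^ T.factorial) (fun i _ => h1 i)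
    simpa using this
  have h5 : ((1 : (ZMod 2)[X]) + X ^ T.factorial) ^ (2 ^ d) = 1 + X ^ (2 ^ d * T.factorial) := by
    rw [add_pow_char_pow, one_pow, ← pow_mul, mul_comm]
  rw [← h5]
  exact h4.trans (pow_dvd_pow _ Nat.lt_two_pow_self.le)

theorem poly (d T : ℕ) : ∃ K : ℕ, 1 ≤ K ∧ ∀ t : Fin d → ℕ, (∀ i, 1 ≤ t i ∧ t i ≤ T) →
    ∃ J : Finset ℕ, J ⊆ range (K + 1) ∧ ∀ (g : ℕ → ZMod 2) (h n : ℕ),
      ∑ j ∈ J, ∑ s : Finset (Fin d), g (n + h * j + h * ∑ i ∈ s, t i) = g n + g (n + h * K) := by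
  classical
  have hK : 1 ≤ 2 ^ d * T.factorial := Nat.succ_le_of_lt (by positivity)
  refine ⟨2 ^ d * T.factorial, hK, ?_⟩
  intro t ht
  obtain ⟨q, hq⟩ := prod_dvd d T t ht
  set K := 2 ^ d * T.factorial with hKdef
  have hne : ((1 : Polynomial (ZMod 2)) + Polynomial.X ^ K) ≠ 0 := by
    intro h0
    have := congrArg (fun p => Polynomial.coeff p 0) h0
    have h0K : ¬ (0 = K) := by omega
    simp only [Polynomial.coeff_add, Polynomial.coeff_one_zero, Polynomial.coeff_X_pow, if_neg h0K,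
      Polynomial.coeff_zero, add_zero] at this
    exact one_ne_zero this
  have hdeg : (1 + Polynomial.X ^ K : Polynomial (ZMod 2)).natDegree ≤ K := by
    refine (Polynomial.natDegree_add_le _ _).trans ?_
    simp
  have hq0 : q ≠ 0 := by
    rintro rfl
    apply hne
    rw [hq, mul_zero]
  have hp0 : (∏ i, (1 + Polynomial.X ^ t i) : Polynomial (ZMod 2)) ≠ 0 := by
    intro h0
    apply hne
    rw [hq, h0, zero_mul]
  have hqdeg : q.natDegree ≤ K := by
    have h1 := Polynomial.natDegree_mul hp0 hq0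
    rw [← hq] at h1
    omega
  refine ⟨q.support, ?_, ?_⟩
  · intro j hj
    rw [Finset.mem_range]
    have := Polynomial.le_natDegree_of_mem_supp j hj
    omega
  · intro g h n
    have e1 : phi g h n (1 + Polynomial.X ^ K) = g n + g (n + h * K) := by
      have e2 : (1 : Polynomial (ZMod 2)) + Polynomial.X ^ K
          = 1 * Polynomial.X ^ 0 + 1 * Polynomial.X ^ K := by simp
      rw [e2, phi_add, phi_shift, phi_shift]
      have e3 : ∀ m, phi g h m 1 = g m := by
        intro m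
        unfold phi
        rw [← Polynomial.C_1, Polynomial.sum_C_index (by simp)]
        simp
      rw [e3, e3]
      simp
    rw [← e1, hq, Finset.prod_one_add, Finset.sum_mul, phi_sum]
    rw [Finset.sum_comm, ← Finset.powerset_univ]
    apply Finset.sum_congr rfl
    intro s _
    rw [Finset.prod_pow_eq_pow_sum, mul_comm (Polynomial.X ^ _) q, phi_shift, phi_support]
    apply Finset.sum_congr rfl
    intro j _
    congr 1
    ring

end UGC
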