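import Pool.Agent.Helper72.UGC.BoxM
import Pool.Agent.Helper72.UGC.Corner
import Pool.Agent.Helper72.UGC.Poly

/-!
# UGC-5: block C of project UG, the descent

Let `T` be that of `boxM d c`, `K` that of `poly d T`, `C = 4 * 2 ^ d * (K + 1)` (or larger). Given `W`, `k`, `s` put `Pk = ∏ k i`,
`m i = Pk * s / k i` (`k i ∣ Pk`, so `m i * k i = Pk * s`, `m i > 0`), `h = W * Pk * s`; `N₀` is the maximum of that of `boxM` for `m` and
`h * K + 1`. Let `u, t` be given by `boxM`; the corner `s' = ∅` shows `u ∈ B ⊆ bx d N`, so `u i ≤ N` (for `d = 0` nothing to say).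
(1) Let `w = W * ∑ u i k i ≤ W (∑ k i) N` and `n' ∈ Icc 1 M`, `n' % q = κ`, `n' > w`, `n = n' - w` (same class modulo `q` since `q ∣ W ∣ w`,
`1 ≤ n ≤ M`). By `corner`: `DD g W k (m t) n' = ∑_{s'} DD g W k (corner s') n`. So if `DD g W k (m t) n' ≠ 0` then `n` is one of the at most
`2 ^ d * E` exceptions of the corners. Number of the bad `n'`: at most `2 ^ d E + w`.
(2) `DD g W k (m t) n' = ∑_s g (n' + W ∑_{i ∈ s} m i t i k i) = ∑_s g (n' + h ∑_{i ∈ s} t i)`.
(3) For `n ∈ Icc 1 M` with `n % q = κ` and `n + h K ≤ M`: by `poly` (with `h`), `g n + g (n + h K) = ∑_{j ∈ J} DD g W k (m t) (n + h j)`, and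
`n + h j ∈ Icc 1 M` is in the class `κ` (`q ∣ h`). If `g n ≠ g (n + h K)` the sum is `≠ 0` (`ZMod 2`), so some `n + h j` is bad: at most
`(K + 1) (2 ^ d E + w)` such `n`. The `n` with `n + h K > M` are at most `h K ≤ N`. Total
`≤ (K + 1) (2 ^ d E + W (∑ k i) N) + N ≤ C (E + W (1 + ∑ k i) N)`. Note `n + W * (∏ k i) * K * s = n + h * K`.
-/

set_option autoImplicit false

namespace UGC

open Finset UGB

theorem DD_scale {d : ℕ} (g : ℕ → ZMod 2) (W : ℕ) (k m t : Fin d → ℕ) (Q : ℕ)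
    (hm : ∀ i, m i * k i = Q) (n : ℕ) :
    DD g W k (fun i => m i * t i) n = ∑ s : Finset (Fin d), g (n + (W * Q) * ∑ i ∈ s, t i) := by
  unfold DD
  refine Finset.sum_congr rfl fun s _ => ?_
  have h0 : Q * ∑ i ∈ s, t i = ∑ i ∈ s, m i * t i * k i := by
    rw [Finset.mul_sum]
    refine Finset.sum_congr rfl fun i _ => ?_
    rw [← hm i]
    ring
  have h1 : W * ∑ i ∈ s, m i * t i * k i = (W * Q) * ∑ i ∈ s, t i := by
    rw [← h0, mul_assoc]
  rw [h1]

theorem card_overflow (M h : ℕ) : ((Icc 1 M).filter (fun n => M < n + h)).card ≤ h := by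
  have hsub : (Icc 1 M).filter (fun n => M < n + h) ⊆ Ioc (M - h) M := by
    intro n hn
    simp only [mem_filter, mem_Icc] at hn
    simp only [mem_Ioc]
    omega
  refine (Finset.card_le_card hsub).trans ?_
  rw [Nat.card_Ioc]
  omega

theorem bad_card (d : ℕ) (g : ℕ → ZMod 2) (W : ℕ) (k u t : Fin d → ℕ) (q κ M : ℕ) (E : ℝ)
    (hq : q ∣ W)
    (hE : ∀ s : Finset (Fin d), (((Icc 1 M).filter (fun n => n % q = κ ∧
      DD g W k (fun i => u i + if i ∈ s then t i else 0) n ≠ 0)).card : ℝ) ≤ E) :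
    (((Icc 1 M).filter (fun n => n % q = κ ∧ DD g W k t n ≠ 0)).card : ℝ) ≤
      (W * ∑ i, u i * k i : ℕ) + 2 ^ d * E := by
  classical
  set w := W * ∑ i, u i * k i with hw
  set S : Finset (Fin d) → Finset ℕ := fun s => (Icc 1 M).filter (fun n => n % q = κ ∧
      DD g W k (fun i => u i + if i ∈ s then t i else 0) n ≠ 0) with hS
  have hsub : (Icc 1 M).filter (fun n => n % q = κ ∧ DD g W k t n ≠ 0) ⊆
      Icc 1 w ∪ (univ : Finset (Finset (Fin d))).biUnion (fun s => (S s).image (fun n => n + w)) := by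
    intro n' hn'
    simp only [mem_filter, mem_Icc] at hn'
    obtain ⟨⟨h1, h2⟩, h3, h4⟩ := hn'
    rw [mem_union]
    by_cases hle : n' ≤ w
    · left
      simp only [mem_Icc]
      exact ⟨h1, hle⟩
    · right
      push Not at hle
      obtain ⟨n, rfl⟩ : ∃ n, n' = n + w := ⟨n' - w, by omega⟩
      have hc := corner d g W k u t n
      have hne : ∑ s : Finset (Fin d),
          DD g W k (fun i => u i + if i ∈ s then t i else 0) n ≠ 0 := by
        rw [hc]
        exact h4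
      obtain ⟨s, hs, hs'⟩ := Finset.exists_ne_zero_of_sum_ne_zero hne
      rw [mem_biUnion]
      refine ⟨s, mem_univ _, ?_⟩
      rw [mem_image]
      refine ⟨n, ?_, rfl⟩
      simp only [hS, mem_filter, mem_Icc]
      refine ⟨⟨by omega, by omega⟩, ?_, hs'⟩
      obtain ⟨W', hW'⟩ := hq
      rw [← h3, hw, hW', mul_assoc, Nat.add_mul_mod_self_left]
  have hcard := Finset.card_le_card hsub
  have h1 : (Icc 1 w ∪ (univ : Finset (Finset (Fin d))).biUnion
      (fun s => (S s).image (fun n => n + w))).card ≤ w + ∑ s : Finset (Fin d), (S s).card := by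
    refine (Finset.card_union_le _ _).trans ?_
    refine Nat.add_le_add ?_ ?_
    · simp
    · refine Finset.card_biUnion_le.trans ?_
      exact Finset.sum_le_sum fun s _ => Finset.card_image_le
  have h2 : (((Icc 1 M).filter (fun n => n % q = κ ∧ DD g W k t n ≠ 0)).card : ℝ) ≤
      (w : ℝ) + ∑ s : Finset (Fin d), ((S s).card : ℝ) := by
    have := hcard.trans h1
    exact_mod_cast this
  refine h2.trans ?_
  have h3 : ∑ s : Finset (Fin d), ((S s).card : ℝ) ≤ ∑ _s : Finset (Fin d), E :=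
    Finset.sum_le_sum fun s _ => hE s
  have h4 : ∑ _s : Finset (Fin d), E = 2 ^ d * E := by
    simp
  linarith

theorem tgt_card (K h : ℕ) (g : ℕ → ZMod 2) (D : ℕ → ZMod 2) (J : Finset ℕ) (hJ : J ⊆ range (K + 1))
    (q κ M : ℕ) (hq : q ∣ h) (hp : ∀ n, ∑ j ∈ J, D (n + h * j) = g n + g (n + h * K)) :
    ((Icc 1 M).filter (fun n => n % q = κ ∧ g n ≠ g (n + h * K))).card ≤
      h * K + (K + 1) * ((Icc 1 M).filter (fun n => n % q = κ ∧ D n ≠ 0)).card := by
  classical
  set Bad := (Icc 1 M).filter (fun n => n % q = κ ∧ D n ≠ 0) with hBad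
  have hsub : (Icc 1 M).filter (fun n => n % q = κ ∧ g n ≠ g (n + h * K)) ⊆
      (Icc 1 M).filter (fun n => M < n + h * K) ∪
        (range (K + 1)).biUnion (fun j => (Icc 1 M).filter (fun n => n + h * j ∈ Bad)) := by
    intro n hn
    simp only [mem_filter, mem_Icc] at hn
    obtain ⟨⟨h1, h2⟩, h3, h4⟩ := hn
    rw [mem_union]
    by_cases hlt : M < n + h * K
    · left
      simp only [mem_filter, mem_Icc]
      exact ⟨⟨h1, h2⟩, hlt⟩
    · right
      push Not at hlt
      have hne : ∑ j ∈ J, D (n + h * j) ≠ 0 := by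
        rw [hp]
        intro h0
        exact h4 (CharTwo.add_eq_zero.mp h0)
      obtain ⟨j, hj, hj'⟩ := Finset.exists_ne_zero_of_sum_ne_zero hne
      rw [mem_biUnion]
      refine ⟨j, hJ hj, ?_⟩
      have hjK : j ≤ K := by
        have := mem_range.mp (hJ hj)
        omega
      simp only [hBad, mem_filter, mem_Icc]
      refine ⟨⟨h1, h2⟩, ⟨by omega, ?_⟩, ?_, hj'⟩
      · have := Nat.mul_le_mul_left h hjK
        omega
      · obtain ⟨h', hh'⟩ := hq
        rw [← h3, hh', mul_assoc, Nat.add_mul_mod_self_left]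
  refine (Finset.card_le_card hsub).trans ?_
  refine (Finset.card_union_le _ _).trans ?_
  refine Nat.add_le_add (card_overflow M (h * K)) ?_
  refine Finset.card_biUnion_le.trans ?_
  have : ∀ j ∈ range (K + 1), ((Icc 1 M).filter (fun n => n + h * j ∈ Bad)).card ≤ Bad.card := by
    intro j _
    refine Finset.card_le_card_of_injOn (fun n => n + h * j) ?_ ?_
    · intro n hn
      have hn' := (Finset.mem_filter.mp (Finset.mem_coe.mp hn)).2
      exact Finset.mem_coe.mpr hn'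
    · intro a _ b _ hab
      simpa using hab
  refine (Finset.sum_le_sum this).trans ?_
  simp

theorem descent (d : ℕ) (c : ℝ) (hc : 0 < c) : ∃ (C : ℝ) (K : ℕ), 0 < C ∧ 1 ≤ K ∧
    ∀ W : ℕ, 0 < W → ∀ k : Fin d → ℕ, (∀ i, 0 < k i) → ∀ s : ℕ, 0 < s →
      ∃ N₀ : ℕ, ∀ N : ℕ, N₀ ≤ N → ∀ B : Finset (Fin d → ℕ), B ⊆ bx d N →
        c * (N : ℝ) ^ d ≤ (B.card : ℝ) →
          ∀ (g : ℕ → ZMod 2) (q κ M : ℕ) (E : ℝ), q ∣ W → 0 ≤ E →
            (∀ b ∈ B, (((Icc 1 M).filter (fun n => n % q = κ ∧ DD g W k b n ≠ 0)).card : ℝ) ≤ E) →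
              (((Icc 1 M).filter
                (fun n => n % q = κ ∧ g n ≠ g (n + W * (∏ i, k i) * K * s))).card : ℝ) ≤
                C * (E + W * (1 + ∑ i, (k i : ℝ)) * N) := by
  classical
  obtain ⟨T, hT, hbox⟩ := boxM d c hc
  obtain ⟨K, hK, hpoly⟩ := poly d T
  refine ⟨2 ^ d * (K + 1), K, by positivity, hK, ?_⟩
  intro W hW k hk s hs
  set Pk := ∏ i, k i with hPk
  have hdvd : ∀ i, k i ∣ Pk := fun i => Finset.dvd_prod_of_mem k (mem_univ i)
  have hPk0 : 0 < Pk := Finset.prod_pos fun i _ => hk i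
  set m : Fin d → ℕ := fun i => Pk * s / k i with hm
  have hmk : ∀ i, m i * k i = Pk * s := by
    intro i
    exact Nat.div_mul_cancel (Dvd.dvd.mul_right (hdvd i) s)
  have hPs : 0 < Pk * s := Nat.mul_pos hPk0 hs
  have hm0 : ∀ i, 0 < m i := by
    intro i
    rcases Nat.eq_zero_or_pos (m i) with h0 | h0
    · have := hmk i
      rw [h0, zero_mul] at this
      omega
    · exact h0
  obtain ⟨N₁, hN₁⟩ := hbox m hm0
  set h := W * (Pk * s) with hh
  refine ⟨max N₁ (h * K + 1), ?_⟩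
  intro N hN B hB hBc g q κ M E hq hE0 hE
  have hNN₁ : N₁ ≤ N := le_trans (le_max_left _ _) hN
  have hNh : h * K ≤ N := by
    have := le_trans (le_max_right N₁ (h * K + 1)) hN
    omega
  obtain ⟨u, t, ht, hcor⟩ := hN₁ N hNN₁ B hB hBc
  have hu : ∀ i, u i ≤ N := by
    intro i
    have h1 := hB (hcor ∅)
    rw [mem_bx] at h1
    have := (h1 i).2
    simpa using this
  obtain ⟨J, hJ, hJp⟩ := hpoly t ht
  -- the bad set
  have hbad := bad_card d g W k u (fun i => m i * t i) q κ M E hq (fun s' => hE _ (hcor s'))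
  have hp : ∀ n, ∑ j ∈ J, DD g W k (fun i => m i * t i) (n + h * j) = g n + g (n + h * K) := by
    intro n
    rw [← hJp g h n]
    refine Finset.sum_congr rfl fun j _ => ?_
    rw [DD_scale g W k m t (Pk * s) hmk]
  have hqh : q ∣ h := Dvd.dvd.mul_right hq _
  have htgt := tgt_card K h g (DD g W k (fun i => m i * t i)) J hJ q κ M hqh hp
  have heq : ∀ n, n + W * Pk * K * s = n + h * K := by
    intro n
    rw [hh]
    ring
  have hset : (Icc 1 M).filter (fun n => n % q = κ ∧ g n ≠ g (n + W * Pk * K * s)) =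
      (Icc 1 M).filter (fun n => n % q = κ ∧ g n ≠ g (n + h * K)) := by
    refine Finset.filter_congr fun n _ => ?_
    rw [heq]
  rw [hset]
  have htgt' : (((Icc 1 M).filter (fun n => n % q = κ ∧ g n ≠ g (n + h * K))).card : ℝ) ≤
      (h * K : ℕ) + (K + 1) *
        (((Icc 1 M).filter (fun n => n % q = κ ∧ DD g W k (fun i => m i * t i) n ≠ 0)).card : ℝ) := by
    exact_mod_cast htgt
  have hw : ((W * ∑ i, u i * k i : ℕ) : ℝ) ≤ W * (∑ i, (k i : ℝ)) * N := by
    push_cast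
    rw [mul_assoc, Finset.sum_mul]
    refine mul_le_mul_of_nonneg_left ?_ (by positivity)
    refine Finset.sum_le_sum fun i _ => ?_
    have hui : (u i : ℝ) ≤ N := by exact_mod_cast hu i
    have : (0 : ℝ) ≤ k i := by positivity
    nlinarith
  have hNh' : ((h * K : ℕ) : ℝ) ≤ N := by exact_mod_cast hNh
  have hW1 : (1 : ℝ) ≤ W := by exact_mod_cast hW
  have hN0 : (0 : ℝ) ≤ N := by positivity
  have hS0 : (0 : ℝ) ≤ ∑ i, (k i : ℝ) := Finset.sum_nonneg fun i _ => by positivity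
  have hK0 : (0 : ℝ) ≤ (K : ℝ) := by positivity
  have h2d : (1 : ℝ) ≤ 2 ^ d := one_le_pow₀ (by norm_num)
  set Sk := ∑ i, (k i : ℝ) with hSk
  have hstep : (((Icc 1 M).filter (fun n => n % q = κ ∧ g n ≠ g (n + h * K))).card : ℝ) ≤
      N + (K + 1) * (W * Sk * N + 2 ^ d * E) := by
    refine htgt'.trans ?_
    have h5 : (((Icc 1 M).filter
        (fun n => n % q = κ ∧ DD g W k (fun i => m i * t i) n ≠ 0)).card : ℝ) ≤
        W * Sk * N + 2 ^ d * E := by
      linarith
    have h6 : ((K : ℝ) + 1) * (((Icc 1 M).filter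
        (fun n => n % q = κ ∧ DD g W k (fun i => m i * t i) n ≠ 0)).card : ℝ) ≤
        (K + 1) * (W * Sk * N + 2 ^ d * E) := mul_le_mul_of_nonneg_left h5 (by linarith)
    linarith
  refine hstep.trans ?_
  have h7 : (N : ℝ) ≤ (K + 1) * (W * N) := by
    have : (N : ℝ) ≤ W * N := by nlinarith
    have h8 : (0 : ℝ) ≤ W * N := by positivity
    nlinarith
  have h9 : (0 : ℝ) ≤ W * (1 + Sk) * N := by positivity
  have h10 : (K + 1 : ℝ) * (W * (1 + Sk) * N) ≤ 2 ^ d * (K + 1) * (W * (1 + Sk) * N) := by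
    have : (0 : ℝ) ≤ (K + 1 : ℝ) * (W * (1 + Sk) * N) := by positivity
    nlinarith
  calc (N : ℝ) + (K + 1) * (W * Sk * N + 2 ^ d * E)
      ≤ (K + 1) * (W * N) + (K + 1) * (W * Sk * N + 2 ^ d * E) := by linarith
    _ = (K + 1) * (W * (1 + Sk) * N) + 2 ^ d * (K + 1) * E := by ring
    _ ≤ 2 ^ d * (K + 1) * (W * (1 + Sk) * N) + 2 ^ d * (K + 1) * E := by linarith
    _ = 2 ^ d * (K + 1) * (E + W * (1 + Sk) * N) := by ring

end UGC
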