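import Pool.Agent.Helper72.UGC.Defs

/-!
# UGC-1: dense sets contain boxes with bounded sides

Induction on `d` (write `b = Fin.cons x b'`). Let `R = ∏_{i ≥ 1} L i` be the size of the tail box, `L₀ = L 0`,
`T₁ = ⌈8 / c⌉₊`, `L₀ ≥ T₁`. If for all `x < L₀` and `1 ≤ t ≤ T₁` the set
`S x t = {b' : Fin.cons x b' ∈ B, Fin.cons (x + t) b' ∈ B}` had fewer than `c / (2 T₁) * R` elements, then removing from
`B` all `b` with a second point at distance at most `T₁` in direction `0` removes at most `(c / 2) L₀ R` elements, and the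
rest injects into `[0, L₀ / T₁] × tail box` by `b ↦ (b 0 / T₁, tail b)`: a contradiction. The induction hypothesis for
one of the sets `S x t` finishes the proof.
-/

set_option autoImplicit false

namespace UGC

open Finset UGB

theorem box (d : ℕ) : ∀ c : ℝ, 0 < c → ∃ T N₀ : ℕ, 1 ≤ T ∧ 1 ≤ N₀ ∧ ∀ L : Fin d → ℕ, (∀ i, N₀ ≤ L i) →
    ∀ B : Finset (Fin d → ℕ), (∀ b ∈ B, ∀ i, b i < L i) → c * (∏ i, (L i : ℝ)) ≤ (B.card : ℝ) →
      ∃ u t : Fin d → ℕ, (∀ i, 1 ≤ t i ∧ t i ≤ T) ∧
        ∀ s : Finset (Fin d), (fun i => u i + if i ∈ s then t i else 0) ∈ B := by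
  induction d with
  | zero =>
    intro c hc
    refine ⟨1, 1, le_rfl, le_rfl, fun L _ B _ hB => ?_⟩
    have hpos : 0 < B.card := by
      have : (0 : ℝ) < B.card := by
        have h1 : c * (∏ i, (L i : ℝ)) = c := by simp
        rw [h1] at hB
        linarith
      exact_mod_cast this
    obtain ⟨b, hb⟩ := Finset.card_pos.1 hpos
    refine ⟨fun i => i.elim0, fun i => i.elim0, fun i => i.elim0, fun s => ?_⟩
    have hall : ∀ x : Fin 0 → ℕ, x ∈ B := fun x => by
      rw [Subsingleton.elim x b]
      exact hb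
    exact hall _
  | succ d ih =>
    intro c hc
    obtain ⟨T1, hT1, hT1c⟩ : ∃ T1 : ℕ, 1 ≤ T1 ∧ 8 / c ≤ (T1 : ℝ) := by
      refine ⟨⌈8 / c⌉₊, ?_, Nat.le_ceil _⟩
      have : (0 : ℝ) < 8 / c := by positivity
      exact Nat.one_le_ceil_iff.2 this
    have hT1pos : (0 : ℝ) < T1 := by exact_mod_cast hT1
    have h8 : 8 ≤ c * (T1 : ℝ) := by
      rw [div_le_iff₀ hc] at hT1c
      linarith
    obtain ⟨T', N', hT', hN', hih⟩ := ih (c / (2 * T1)) (by positivity)
    refine ⟨max T1 T', max T1 N', le_max_of_le_left hT1, le_max_of_le_left hT1, fun L hL B hB hcard => ?_⟩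
    have hL0 : T1 ≤ L 0 := (le_max_left _ _).trans (hL 0)
    have hL0pos : (0 : ℝ) < L 0 := by
      have : 0 < L 0 := lt_of_lt_of_le (by omega) hL0
      exact_mod_cast this
    have hLs : ∀ i : Fin d, N' ≤ L i.succ := fun i => (le_max_right _ _).trans (hL i.succ)
    set R : ℝ := ∏ i : Fin d, (L i.succ : ℝ) with hR
    have hRpos : 0 < R := by
      refine Finset.prod_pos fun i _ => ?_
      have : 0 < L i.succ := lt_of_lt_of_le (by omega) (hLs i)
      exact_mod_cast this
    set tb : Finset (Fin d → ℕ) := Fintype.piFinset (fun i : Fin d => range (L i.succ)) with htb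
    have htbcard : (tb.card : ℝ) = R := by
      simp [htb, hR]
    have htail : ∀ b ∈ B, Fin.tail b ∈ tb := by
      intro b hb
      rw [htb, Fintype.mem_piFinset]
      intro i
      exact mem_range.2 (hB b hb i.succ)
    set S : ℕ → ℕ → Finset (Fin d → ℕ) := fun x t =>
      tb.filter (fun b' => (Fin.cons x b' : Fin (d + 1) → ℕ) ∈ B ∧ (Fin.cons (x + t) b' : Fin (d + 1) → ℕ) ∈ B)
      with hS
    -- the key pigeonhole
    obtain ⟨x, t, ht1, ht2, hxt⟩ : ∃ x t : ℕ, 1 ≤ t ∧ t ≤ T1 ∧ c / (2 * T1) * R ≤ ((S x t).card : ℝ) := by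
      by_contra hno
      push Not at hno
      set B1 : Finset (Fin (d + 1) → ℕ) := (range (L 0) ×ˢ Icc 1 T1).biUnion
        (fun q => (S q.1 q.2).image (fun b' => (Fin.cons q.1 b' : Fin (d + 1) → ℕ))) with hB1
      set B2 : Finset (Fin (d + 1) → ℕ) := B.filter
        (fun b => ∀ t ∈ Icc 1 T1, (Fin.cons (b 0 + t) (Fin.tail b) : Fin (d + 1) → ℕ) ∉ B) with hB2
      have hsub : B ⊆ B1 ∪ B2 := by
        intro b hb
        by_cases h : ∀ t ∈ Icc 1 T1, (Fin.cons (b 0 + t) (Fin.tail b) : Fin (d + 1) → ℕ) ∉ B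
        · exact mem_union_right _ (mem_filter.2 ⟨hb, h⟩)
        · push Not at h
          obtain ⟨t, ht, htb'⟩ := h
          refine mem_union_left _ (mem_biUnion.2 ⟨(b 0, t), ?_, ?_⟩)
          · exact mem_product.2 ⟨mem_range.2 (hB b hb 0), ht⟩
          · refine mem_image.2 ⟨Fin.tail b, ?_, Fin.cons_self_tail b⟩
            rw [hS]
            refine mem_filter.2 ⟨htail b hb, ?_, htb'⟩
            simpa [Fin.cons_self_tail] using hb
      have hc1 : (B1.card : ℝ) ≤ (L 0 : ℝ) * T1 * (c / (2 * T1) * R) := by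
        have h1 : (B1.card : ℝ) ≤ ∑ q ∈ range (L 0) ×ˢ Icc 1 T1, ((S q.1 q.2).card : ℝ) := by
          have h2 : B1.card ≤ ∑ q ∈ range (L 0) ×ˢ Icc 1 T1, (S q.1 q.2).card :=
            (card_biUnion_le).trans (sum_le_sum fun q _ => card_image_le)
          exact_mod_cast h2
        refine h1.trans ?_
        have h3 : ∑ q ∈ range (L 0) ×ˢ Icc 1 T1, ((S q.1 q.2).card : ℝ) ≤
            ∑ _q ∈ range (L 0) ×ˢ Icc 1 T1, (c / (2 * T1) * R) := by
          refine sum_le_sum fun q hq => ?_
          have hq2 := (mem_product.1 hq).2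
          rw [mem_Icc] at hq2
          exact (hno q.1 q.2 hq2.1 hq2.2).le
        refine h3.trans (le_of_eq ?_)
        rw [sum_const, card_product, card_range, Nat.card_Icc, nsmul_eq_mul]
        push_cast
        simp
      have hc2 : (B2.card : ℝ) ≤ ((L 0 : ℝ) / T1 + 1) * R := by
        have h1 : B2.card ≤ (range (L 0 / T1 + 1) ×ˢ tb).card := by
          refine card_le_card_of_injOn (fun b => (b 0 / T1, Fin.tail b)) ?_ ?_
          · intro b hb
            have hb' : b ∈ B := (mem_filter.1 hb).1
            simp only [coe_product, Set.mem_prod, mem_coe, mem_range]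
            refine ⟨?_, htail b hb'⟩
            have := Nat.div_le_div_right (c := T1) (hB b hb' 0).le
            omega
          · intro a ha b hb hab
            simp only [Prod.mk.injEq] at hab
            obtain ⟨hab0, habt⟩ := hab
            have ha' := mem_filter.1 (mem_coe.1 ha)
            have hb' := mem_filter.1 (mem_coe.1 hb)
            have key : ∀ a b : Fin (d + 1) → ℕ, b ∈ B → a 0 / T1 = b 0 / T1 → Fin.tail a = Fin.tail b →
                (∀ t ∈ Icc 1 T1, (Fin.cons (a 0 + t) (Fin.tail a) : Fin (d + 1) → ℕ) ∉ B) → ¬ a 0 < b 0 := by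
              intro a b hb h0 ht ha hlt
              have hmod1 := Nat.div_add_mod (a 0) T1
              have hmod2 := Nat.div_add_mod (b 0) T1
              have hm2 := Nat.mod_lt (b 0) (show T1 > 0 by omega)
              rw [h0] at hmod1
              refine ha (b 0 - a 0) (mem_Icc.2 ⟨by omega, by omega⟩) ?_
              have : a 0 + (b 0 - a 0) = b 0 := by omega
              rw [this, ht, Fin.cons_self_tail]
              exact hb
            have h0 : a 0 = b 0 := by
              have h1 := key a b hb'.1 hab0 habt ha'.2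
              have h2 := key b a ha'.1 hab0.symm habt.symm hb'.2
              omega
            rw [← Fin.cons_self_tail a, ← Fin.cons_self_tail b, h0, habt]
        have h2 : (B2.card : ℝ) ≤ ((L 0 / T1 : ℕ) + 1 : ℝ) * R := by
          rw [card_product, card_range] at h1
          have : (B2.card : ℝ) ≤ ((L 0 / T1 + 1 : ℕ) : ℝ) * (tb.card : ℝ) := by exact_mod_cast h1
          rw [htbcard] at this
          push_cast at this
          exact this
        refine h2.trans (mul_le_mul_of_nonneg_right ?_ hRpos.le)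
        have := @Nat.cast_div_le ℝ _ _ _ (L 0) T1
        linarith
      have hprod : (∏ i, (L i : ℝ)) = (L 0 : ℝ) * R := by
        rw [Fin.prod_univ_succ]
      rw [hprod] at hcard
      have hle : (B.card : ℝ) ≤ B1.card + B2.card := by
        have := (card_le_card hsub).trans (card_union_le _ _)
        exact_mod_cast this
      have e1 : (L 0 : ℝ) * T1 * (c / (2 * T1) * R) = c / 2 * ((L 0 : ℝ) * R) := by
        field_simp
      have e2 : ((L 0 : ℝ) / T1 + 1) ≤ c / 4 * (L 0 : ℝ) := by
        have hh1 : (L 0 : ℝ) / T1 ≤ c / 8 * (L 0 : ℝ) := by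
          rw [div_le_iff₀ hT1pos]
          nlinarith
        have hh2 : (1 : ℝ) ≤ c / 8 * (L 0 : ℝ) := by
          have : (T1 : ℝ) ≤ L 0 := by exact_mod_cast hL0
          nlinarith
        linarith
      have e3 : ((L 0 : ℝ) / T1 + 1) * R ≤ c / 4 * ((L 0 : ℝ) * R) := by
        have := mul_le_mul_of_nonneg_right e2 hRpos.le
        linarith
      have hpos : 0 < c * ((L 0 : ℝ) * R) := by positivity
      rw [e1] at hc1
      linarith
    have hSL : ∀ b ∈ S x t, ∀ i, b i < L i.succ := by
      intro b hb i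
      have := (mem_filter.1 hb).1
      rw [htb, Fintype.mem_piFinset] at this
      exact mem_range.1 (this i)
    obtain ⟨u', t', ht', hbox⟩ := hih (fun i => L i.succ) hLs (S x t) hSL hxt
    refine ⟨Fin.cons x u', Fin.cons t t', ?_, ?_⟩
    · intro i
      refine Fin.cases ?_ (fun j => ?_) i
      · simp only [Fin.cons_zero]
        exact ⟨ht1, ht2.trans (le_max_left _ _)⟩
      · simp only [Fin.cons_succ]
        exact ⟨(ht' j).1, (ht' j).2.trans (le_max_right _ _)⟩
    · intro s
      have h1 := (mem_filter.1 (hbox (univ.filter (fun i : Fin d => i.succ ∈ s)))).2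
      have h2 : (fun i : Fin (d + 1) => (Fin.cons x u' : Fin (d + 1) → ℕ) i +
          if i ∈ s then (Fin.cons t t' : Fin (d + 1) → ℕ) i else 0) =
          Fin.cons (x + if (0 : Fin (d + 1)) ∈ s then t else 0)
            (fun i => u' i + if i ∈ univ.filter (fun i : Fin d => i.succ ∈ s) then t' i else 0) := by
        funext i
        refine Fin.cases ?_ (fun j => ?_) i
        · simp
        · simp
      rw [h2]
      by_cases h0 : (0 : Fin (d + 1)) ∈ s
      · rw [if_pos h0]
        exact h1.2
      · rw [if_neg h0, add_zero]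
        exact h1.1

end UGC
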