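import Pool.Agent.Helper72.UGC.Box

/-!
# UGC-2: boxes with sides divisible by given moduli

`T` is that of `box d (c / 2 ^ d)`, `N₀' ` its threshold. Given `m`, let `N ≥ N₀ := N₀' * ∏ m i` (so `N ≥ m i N₀'`, `N ≥ m i`). The classes
`a` with `a i < m i` (`∏ m i` of them) partition `B` by `b ↦ (b i % m i)`, so some class has at least `c N ^ d / ∏ m i` elements. Map it by
`b ↦ (b i / m i)` (injective on the class) into the box `b' i < L i`, `L i = N / m i + 1`; `L i ≤ 2 N / m i`, so `∏ L i ≤ 2 ^ d N ^ d / ∏ m i`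
and the image has at least `c / 2 ^ d * ∏ L i` elements. `L i ≥ N₀'`. `box` gives `u', t`; put `u i = m i * u' i + a i`. The corner of
`s` is mapped to the corner `u' i + (if i ∈ s then t i else 0)` of the image; an element of the class is determined by its image.
-/

set_option autoImplicit false

namespace UGC

open Finset UGB

theorem boxM (d : ℕ) (c : ℝ) (hc : 0 < c) : ∃ T : ℕ, 1 ≤ T ∧ ∀ m : Fin d → ℕ, (∀ i, 0 < m i) →
    ∃ N₀ : ℕ, ∀ N : ℕ, N₀ ≤ N → ∀ B : Finset (Fin d → ℕ), B ⊆ bx d N →
      c * (N : ℝ) ^ d ≤ (B.card : ℝ) →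
        ∃ u t : Fin d → ℕ, (∀ i, 1 ≤ t i ∧ t i ≤ T) ∧
          ∀ s : Finset (Fin d), (fun i => u i + if i ∈ s then m i * t i else 0) ∈ B := by
  classical
  obtain ⟨T, N₁, hT, hN₁, hbox⟩ := box d (c / 2 ^ d) (by positivity)
  refine ⟨T, hT, fun m hm => ⟨N₁ * ∏ i, m i, fun N hN B hB hcard => ?_⟩⟩
  set M : ℕ := ∏ i, m i with hM
  have hMpos : 0 < M := Finset.prod_pos (fun i _ => hm i)
  have hmM : ∀ i, m i ≤ M := fun i =>
    Nat.le_of_dvd hMpos (Finset.dvd_prod_of_mem m (Finset.mem_univ i))
  have hNm : ∀ i, N₁ * m i ≤ N := fun i => (Nat.mul_le_mul_left _ (hmM i)).trans hN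
  have hNm' : ∀ i, m i ≤ N := fun i =>
    (Nat.le_mul_of_pos_left (m i) (by omega)).trans (hNm i)
  -- pigeonhole
  let f : (Fin d → ℕ) → (Fin d → ℕ) := fun b i => b i % m i
  have hcardt : (Fintype.piFinset (fun i => range (m i))).card = M := by
    rw [Fintype.card_piFinset]
    simp [hM]
  have hmaps : ∀ b ∈ B, f b ∈ Fintype.piFinset (fun i => range (m i)) := by
    intro b _
    rw [Fintype.mem_piFinset]
    intro i
    exact mem_range.mpr (Nat.mod_lt _ (hm i))
  have hMR : (0 : ℝ) < (M : ℝ) := by exact_mod_cast hMpos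
  have hne : (Fintype.piFinset (fun i => range (m i))).Nonempty := by
    rw [← Finset.card_pos, hcardt]; exact hMpos
  obtain ⟨a, -, ha⟩ := Finset.exists_le_card_fiber_of_nsmul_le_card_of_maps_to
    (b := c * (N : ℝ) ^ d / M) hmaps hne (by
      rw [hcardt, nsmul_eq_mul, mul_div_cancel₀ _ hMR.ne']
      exact hcard)
  set B' := B.filter (fun b => f b = a) with hB'
  let g : (Fin d → ℕ) → (Fin d → ℕ) := fun b i => b i / m i
  have hginj : Set.InjOn g (B' : Set (Fin d → ℕ)) := by
    intro b hb b' hb' hbb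
    rw [Finset.mem_coe, hB', mem_filter] at hb hb'
    funext i
    have h1 := congrFun hb.2 i
    have h2 := congrFun hb'.2 i
    have h3 := congrFun hbb i
    simp only [f] at h1 h2
    simp only [g] at h3
    have h4 := Nat.div_add_mod (b i) (m i)
    have h5 := Nat.div_add_mod (b' i) (m i)
    rw [← h4, ← h5, h1, h2, h3]
  have hcardim : (B'.image g).card = B'.card := Finset.card_image_of_injOn hginj
  have hLprod : (∏ i, ((N / m i + 1 : ℕ) : ℝ)) ≤ 2 ^ d * (N : ℝ) ^ d / M := by
    have h1 : ∀ i ∈ (Finset.univ : Finset (Fin d)),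
        ((N / m i + 1 : ℕ) : ℝ) ≤ 2 * (N : ℝ) / m i := by
      intro i _
      have hmi : (0 : ℝ) < m i := by exact_mod_cast hm i
      rw [le_div_iff₀ hmi]
      have h2 : (N / m i + 1) * m i ≤ 2 * N := by
        have := Nat.div_mul_le_self N (m i)
        have h3 := hNm' i
        nlinarith
      exact_mod_cast h2
    calc (∏ i, ((N / m i + 1 : ℕ) : ℝ)) ≤ ∏ i : Fin d, (2 * (N : ℝ) / m i) :=
          Finset.prod_le_prod (fun i _ => by positivity) h1
      _ = 2 ^ d * (N : ℝ) ^ d / M := by
          rw [Finset.prod_div_distrib, Finset.prod_const, Finset.card_univ, Fintype.card_fin,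
            mul_pow, hM]
          push_cast
          rfl
  obtain ⟨u', t, ht, hs⟩ := hbox (fun i => N / m i + 1)
    (fun i => by
      have : N₁ ≤ N / m i := (Nat.le_div_iff_mul_le (hm i)).mpr (hNm i)
      omega) (B'.image g) (by
      intro b hb i
      rw [mem_image] at hb
      obtain ⟨b₀, hb₀, rfl⟩ := hb
      rw [hB', mem_filter] at hb₀
      have := (mem_bx.mp (hB hb₀.1) i).2
      exact Nat.lt_succ_of_le (Nat.div_le_div_right this)) (by
      rw [hcardim]
      refine le_trans ?_ ha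
      calc c / 2 ^ d * (∏ i, ((N / m i + 1 : ℕ) : ℝ)) ≤ c / 2 ^ d * (2 ^ d * (N : ℝ) ^ d / M) :=
            mul_le_mul_of_nonneg_left hLprod (by positivity)
        _ = c * (N : ℝ) ^ d / M := by
            field_simp)
  refine ⟨fun i => m i * u' i + a i, t, ht, fun s => ?_⟩
  have h1 := hs s
  rw [mem_image] at h1
  obtain ⟨b, hb, hgb⟩ := h1
  rw [hB', mem_filter] at hb
  have : (fun i => m i * u' i + a i + if i ∈ s then m i * t i else 0) = b := by
    funext i
    have h2 := congrFun hgb i
    have h3 := congrFun hb.2 i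
    simp only [g] at h2
    simp only [f] at h3
    have h4 := Nat.div_add_mod (b i) (m i)
    rw [← h4, h2, h3]
    by_cases his : i ∈ s
    · simp only [his, if_true]; ring
    · simp only [his, if_false]; ring
  rw [this]
  exact hb.1

end UGC
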