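import Pool.Agent.Helper72.UGB.Defs

/-!
# Project UG, block C: the descent (definitions)

Everything is additive: `g : ℕ → ZMod 2` (for the Liouville function `g n = Ω(n)` modulo 2).
-/

set_option autoImplicit false

namespace UGC

open Finset UGB

/-- The sum of `g` over the cube with sides `W * b i * k i` and base `n`. -/
def DD {d : ℕ} (g : ℕ → ZMod 2) (W : ℕ) (k b : Fin d → ℕ) (n : ℕ) : ZMod 2 :=
  ∑ s : Finset (Fin d), g (n + W * ∑ i ∈ s, b i * k i)

end UGC
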